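import Pool.Agent.Q185.RowVN.Defs

/-!
MP_59d57e_an (helper185): evaluation of polynomials at the nilpotent pair, slices of polynomials,
and a discrete Parseval identity.
-/

open MvPolynomial

namespace Pool.Agent.Q185.RowVN

noncomputable section

theorem T_apply (i : Fin 2) (x : Cn 3) : T i x = x 0 • EuclideanSpace.single i.succ (1 : ℂ) := by
  simp [T]

theorem T_mul (i j : Fin 2) : T i * T j = 0 := by
  ext x k
  fin_cases i <;> fin_cases j <;> simp [T_apply]

theorem T_pow {i : Fin 2} {a : ℕ} (ha : 2 ≤ a) : T i ^ a = 0 := by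
  obtain ⟨b, rfl⟩ := Nat.exists_eq_add_of_le ha
  rw [pow_add, pow_two, T_mul, zero_mul]

theorem prod_eq (α : Fin 2 →₀ ℕ) :
    (List.ofFn fun i => T i ^ α i).prod = T 0 ^ α 0 * T 1 ^ α 1 := by
  simp [List.ofFn_succ]

theorem prod_zero {α : Fin 2 →₀ ℕ} (h0 : α ≠ 0) (h1 : α ≠ Finsupp.single 0 1)
    (h2 : α ≠ Finsupp.single 1 1) : T 0 ^ α 0 * T 1 ^ α 1 = 0 := by
  rcases Nat.lt_or_ge (α 0) 2 with ha | ha
  · rcases Nat.lt_or_ge (α 1) 2 with hb | hb
    · interval_cases h : α 0 <;> interval_cases h' : α 1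
      · exact absurd (Finsupp.ext fun k => by fin_cases k <;> simp [h, h']) h0
      · exact absurd (Finsupp.ext fun k => by fin_cases k <;> simp [h, h']) h2
      · exact absurd (Finsupp.ext fun k => by fin_cases k <;> simp [h, h']) h1
      · rw [pow_one, pow_one, T_mul]
    · rw [T_pow hb, mul_zero]
  · rw [T_pow ha, zero_mul]

theorem evalOp_T (p : MvPolynomial (Fin 2) ℂ) :
    evalOp T p = p.coeff 0 • (1 : Cn 3 →L[ℂ] Cn 3) + p.coeff (Finsupp.single 0 1) • T 0 +
      p.coeff (Finsupp.single 1 1) • T 1 := by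
  classical
  have e01 : (Finsupp.single (0 : Fin 2) 1 : Fin 2 →₀ ℕ) ≠ Finsupp.single 1 1 := by
    intro h
    have := DFunLike.congr_fun h 0
    simp at this
  have e0 : (0 : Fin 2 →₀ ℕ) ≠ Finsupp.single 0 1 := by
    intro h
    have := DFunLike.congr_fun h 0
    simp at this
  have e1 : (0 : Fin 2 →₀ ℕ) ≠ Finsupp.single 1 1 := by
    intro h
    have := DFunLike.congr_fun h 1
    simp at this
  let S : Finset (Fin 2 →₀ ℕ) := {0, Finsupp.single 0 1, Finsupp.single 1 1}
  have h1 : evalOp T p = ∑ α ∈ p.support ∪ S, p.coeff α • (T 0 ^ α 0 * T 1 ^ α 1) := by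
    unfold evalOp
    simp_rw [prod_eq]
    refine Finset.sum_subset Finset.subset_union_left fun α _ hα => ?_
    rw [MvPolynomial.notMem_support_iff.1 hα, zero_smul]
  have h2 : ∑ α ∈ p.support ∪ S, p.coeff α • (T 0 ^ α 0 * T 1 ^ α 1) =
      ∑ α ∈ S, p.coeff α • (T 0 ^ α 0 * T 1 ^ α 1) := by
    symm
    refine Finset.sum_subset Finset.subset_union_right fun α _ hα => ?_
    simp only [S, Finset.mem_insert, Finset.mem_singleton, not_or] at hα
    rw [prod_zero hα.1 hα.2.1 hα.2.2]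
    ext x k; simp
  rw [h1, h2, Finset.sum_insert (by simp [e0, e1]), Finset.sum_insert (by simp [e01]),
    Finset.sum_singleton]
  simp [add_assoc]

/-- restriction of a polynomial to the line `ℂ ζ` -/
def slice (ζ : Fin 2 → ℂ) (p : MvPolynomial (Fin 2) ℂ) : Polynomial ℂ :=
  MvPolynomial.aeval (fun i => Polynomial.C (ζ i) * Polynomial.X) p

theorem eval_slice (ζ : Fin 2 → ℂ) (p : MvPolynomial (Fin 2) ℂ) (l : ℂ) :
    (slice ζ p).eval l = MvPolynomial.eval (fun i => ζ i * l) p := by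
  unfold slice
  induction p using MvPolynomial.induction_on with
  | C a => simp
  | add p q hp hq => simp [hp, hq]
  | mul_X p i hp => simp [hp]

theorem slice_coeff_zero (ζ : Fin 2 → ℂ) (p : MvPolynomial (Fin 2) ℂ) :
    (slice ζ p).coeff 0 = p.coeff 0 := by
  rw [Polynomial.coeff_zero_eq_eval_zero, eval_slice]
  simp only [mul_zero]
  have : (fun _ : Fin 2 => (0 : ℂ)) = 0 := rfl
  rw [this, MvPolynomial.eval_zero]
  rfl

theorem slice_coeff_one (ζ : Fin 2 → ℂ) (p : MvPolynomial (Fin 2) ℂ) :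
    (slice ζ p).coeff 1 =
      ζ 0 * p.coeff (Finsupp.single 0 1) + ζ 1 * p.coeff (Finsupp.single 1 1) := by
  induction p using MvPolynomial.induction_on with
  | C a =>
    have h0 : (Finsupp.single (0 : Fin 2) 1 : Fin 2 →₀ ℕ) ≠ 0 := by simp
    have h1 : (Finsupp.single (1 : Fin 2) 1 : Fin 2 →₀ ℕ) ≠ 0 := by simp
    simp [slice, MvPolynomial.coeff_C, h0.symm, h1.symm]
  | add p q hp hq =>
    simp only [slice, map_add, Polynomial.coeff_add, MvPolynomial.coeff_add] at *
    rw [hp, hq]; ring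
  | mul_X p i hp =>
    have h : slice ζ (p * X i) = slice ζ p * (Polynomial.C (ζ i) * Polynomial.X) := by
      simp [slice]
    rw [h, ← mul_assoc, Polynomial.coeff_mul_X, Polynomial.coeff_mul_C, slice_coeff_zero]
    have key : ∀ j : Fin 2, (p * X i).coeff (Finsupp.single j 1) = if i = j then p.coeff 0 else 0 := by
      intro j
      rw [MvPolynomial.coeff_mul_X']
      by_cases hij : i = j
      · subst hij
        simp
      · simp [hij]
    rw [key, key]
    fin_cases i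
    · simp [mul_comm]
    · simp only [Fin.mk_one, Fin.isValue, one_ne_zero, if_false, if_true, mul_zero, zero_add]
      ring

/-- Parseval on the `M`-th roots of unity -/
theorem parseval (F : Polynomial ℂ) (M : ℕ) (hM : F.natDegree < M) {ω : ℂ}
    (hω : IsPrimitiveRoot ω M) :
    ∑ k ∈ Finset.range M, ‖F.eval (ω ^ k)‖ ^ 2 = M * ∑ n ∈ Finset.range M, ‖F.coeff n‖ ^ 2 := by
  have hM0 : M ≠ 0 := by omega
  have hnorm : ‖ω‖ = 1 := hω.norm'_eq_one hM0
  have hconj : (starRingEnd ℂ) ω * ω = 1 := by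
    rw [← Complex.normSq_eq_conj_mul_self, Complex.normSq_eq_norm_sq, hnorm]; simp
  have horth : ∀ n m : ℕ, n < M → m < M →
      ∑ k ∈ Finset.range M, (ω ^ k) ^ n * (starRingEnd ℂ) ((ω ^ k) ^ m) =
        if n = m then (M : ℂ) else 0 := by
    intro n m hn hm
    have e : ∀ k : ℕ, (ω ^ k) ^ n * (starRingEnd ℂ) ((ω ^ k) ^ m) =
        (ω ^ n * (starRingEnd ℂ) (ω) ^ m) ^ k := by
      intro k; simp only [map_pow]; ring
    simp_rw [e]
    by_cases hnm : n = m
    · subst hnm
      have : ω ^ n * (starRingEnd ℂ) ω ^ n = 1 := by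
        rw [← mul_pow, mul_comm ω, hconj, one_pow]
      simp [this]
    · rw [if_neg hnm]
      set q := ω ^ n * (starRingEnd ℂ) ω ^ m with hq
      have hqM : q ^ M = 1 := by
        rw [hq, mul_pow, ← pow_mul, ← pow_mul, mul_comm n, mul_comm m, pow_mul, pow_mul,
          ← map_pow, hω.pow_eq_one]
        simp
      have hq1 : q ≠ 1 := by
        intro h
        have h2 : ω ^ n = ω ^ m := by
          have : q * ω ^ m = ω ^ n * ((starRingEnd ℂ) ω * ω) ^ m := by rw [hq]; ring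
          rw [h, hconj, one_mul, one_pow, mul_one] at this
          exact this.symm
        exact hnm (hω.pow_inj hn hm h2)
      have := mul_neg_geom_sum q M
      rw [hqM, sub_self] at this
      rcases mul_eq_zero.1 this with h | h
      · exact absurd (sub_eq_zero.1 h).symm hq1
      · exact h
  have hev : ∀ z : ℂ, F.eval z = ∑ n ∈ Finset.range M, F.coeff n * z ^ n := fun z =>
    Polynomial.eval_eq_sum_range' hM z
  have hcplx : ∑ k ∈ Finset.range M, F.eval (ω ^ k) * (starRingEnd ℂ) (F.eval (ω ^ k)) =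
      (M : ℂ) * ∑ n ∈ Finset.range M, F.coeff n * (starRingEnd ℂ) (F.coeff n) := by
    calc ∑ k ∈ Finset.range M, F.eval (ω ^ k) * (starRingEnd ℂ) (F.eval (ω ^ k))
        = ∑ k ∈ Finset.range M, ∑ n ∈ Finset.range M, ∑ m ∈ Finset.range M,
            F.coeff n * (starRingEnd ℂ) (F.coeff m) *
              ((ω ^ k) ^ n * (starRingEnd ℂ) ((ω ^ k) ^ m)) := by
          refine Finset.sum_congr rfl fun k _ => ?_
          rw [hev, map_sum, Finset.sum_mul_sum]
          refine Finset.sum_congr rfl fun n _ => Finset.sum_congr rfl fun m _ => ?_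
          rw [map_mul]; ring
      _ = ∑ n ∈ Finset.range M, ∑ m ∈ Finset.range M,
            F.coeff n * (starRingEnd ℂ) (F.coeff m) * (if n = m then (M : ℂ) else 0) := by
          rw [Finset.sum_comm]
          refine Finset.sum_congr rfl fun n hn => ?_
          rw [Finset.sum_comm]
          refine Finset.sum_congr rfl fun m hm => ?_
          rw [← Finset.mul_sum, horth n m (Finset.mem_range.1 hn) (Finset.mem_range.1 hm)]
      _ = (M : ℂ) * ∑ n ∈ Finset.range M, F.coeff n * (starRingEnd ℂ) (F.coeff n) := by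
          rw [Finset.mul_sum]
          refine Finset.sum_congr rfl fun n hn => ?_
          simp only [mul_ite, mul_zero, Finset.sum_ite_eq, hn, if_true]
          ring
  have hn : ∀ z : ℂ, z * (starRingEnd ℂ) z = ((‖z‖ ^ 2 : ℝ) : ℂ) := fun z => by
    rw [Complex.mul_conj, Complex.normSq_eq_norm_sq]
  simp_rw [hn] at hcplx
  exact_mod_cast hcplx

/-- Truncated inequality for rows of polynomials in one variable. -/
theorem truncated {m : ℕ} (q : Fin m → Polynomial ℂ) (C : ℝ)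
    (hq : ∀ l : ℂ, ‖l‖ = 1 → ∑ j, ‖(q j).eval l‖ ^ 2 ≤ C ^ 2) (x y : Fin m → ℂ) :
    ‖∑ j, (q j).coeff 0 * x j‖ ^ 2 +
      ‖∑ j, ((q j).coeff 1 * x j + (q j).coeff 0 * y j)‖ ^ 2 ≤
        C ^ 2 * ∑ j, (‖x j‖ ^ 2 + ‖y j‖ ^ 2) := by
  let w : Fin m → Polynomial ℂ := fun j => Polynomial.C (x j) + Polynomial.C (y j) * Polynomial.X
  let F : Polynomial ℂ := ∑ j, q j * w j
  let M : ℕ := F.natDegree + 2
  have hM0 : M ≠ 0 := by simp [M]
  obtain ⟨ω, hω⟩ : ∃ ω : ℂ, IsPrimitiveRoot ω M := ⟨_, Complex.isPrimitiveRoot_exp M hM0⟩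
  have hnorm : ∀ k : ℕ, ‖ω ^ k‖ = 1 := fun k => by
    rw [norm_pow, hω.norm'_eq_one hM0, one_pow]
  have hF := parseval F M (by simp [M]) hω
  have hwdeg : ∀ j, (w j).natDegree < M := by
    intro j
    have : (w j).natDegree ≤ 1 := by
      simp only [w]
      refine (Polynomial.natDegree_add_le _ _).trans (max_le (by simp) ?_)
      exact (Polynomial.natDegree_C_mul_le _ _).trans Polynomial.natDegree_X_le
    simp only [M]; omega
  have hw := fun j => parseval (w j) M (hwdeg j) hω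
  have hwc : ∀ j, ∑ n ∈ Finset.range M, ‖(w j).coeff n‖ ^ 2 = ‖x j‖ ^ 2 + ‖y j‖ ^ 2 := by
    intro j
    have h0 : (w j).coeff 0 = x j := by simp [w]
    have h1 : (w j).coeff 1 = y j := by simp [w]
    have h2 : ∀ n, (w j).coeff (n + 2) = 0 := fun n => by
      simp [w]
    have : M = F.natDegree + 2 := rfl
    rw [this, Finset.sum_range_succ', Finset.sum_range_succ']
    simp only [zero_add, h0, h1]
    rw [Finset.sum_eq_zero (fun n _ => by rw [show n + 1 + 1 = n + 2 from rfl, h2]; simp)]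
    ring
  have hF0 : F.coeff 0 = ∑ j, (q j).coeff 0 * x j := by
    simp [F, w, Polynomial.mul_coeff_zero]
  have hF1 : F.coeff 1 = ∑ j, ((q j).coeff 1 * x j + (q j).coeff 0 * y j) := by
    simp only [F, w, Polynomial.finsetSum_coeff]
    refine Finset.sum_congr rfl fun j _ => ?_
    rw [mul_add, ← mul_assoc, Polynomial.coeff_add, Polynomial.coeff_mul_C,
      Polynomial.coeff_mul_X, Polynomial.coeff_mul_C]
  have hpt : ∀ k ∈ Finset.range M, ‖F.eval (ω ^ k)‖ ^ 2 ≤
      C ^ 2 * ∑ j, ‖(w j).eval (ω ^ k)‖ ^ 2 := by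
    intro k _
    have e : F.eval (ω ^ k) = ∑ j, (q j).eval (ω ^ k) * (w j).eval (ω ^ k) := by
      simp [F, Polynomial.eval_finsetSum]
    rw [e]
    calc ‖∑ j, (q j).eval (ω ^ k) * (w j).eval (ω ^ k)‖ ^ 2
        ≤ (∑ j, ‖(q j).eval (ω ^ k)‖ * ‖(w j).eval (ω ^ k)‖) ^ 2 := by
          refine pow_le_pow_left₀ (norm_nonneg _) ((norm_sum_le _ _).trans_eq ?_) 2
          simp
      _ ≤ (∑ j, ‖(q j).eval (ω ^ k)‖ ^ 2) * ∑ j, ‖(w j).eval (ω ^ k)‖ ^ 2 :=
          Finset.sum_mul_sq_le_sq_mul_sq _ _ _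
      _ ≤ _ := by
          refine mul_le_mul_of_nonneg_right (hq _ (hnorm k)) (Finset.sum_nonneg fun _ _ => by positivity)
  have hsum := Finset.sum_le_sum hpt
  rw [hF, ← Finset.mul_sum, Finset.sum_comm] at hsum
  simp_rw [hw, hwc, ← Finset.mul_sum] at hsum
  have hMpos : (0 : ℝ) < M := by positivity
  have h3 : ∑ n ∈ Finset.range M, ‖F.coeff n‖ ^ 2 ≤ C ^ 2 * ∑ j, (‖x j‖ ^ 2 + ‖y j‖ ^ 2) := by
    have : (M : ℝ) * ∑ n ∈ Finset.range M, ‖F.coeff n‖ ^ 2 ≤
        M * (C ^ 2 * ∑ j, (‖x j‖ ^ 2 + ‖y j‖ ^ 2)) := by linarith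
    exact le_of_mul_le_mul_left this hMpos
  refine le_trans ?_ h3
  rw [← hF0, ← hF1]
  have : ({0, 1} : Finset ℕ) ⊆ Finset.range M := by
    intro n hn
    simp only [Finset.mem_insert, Finset.mem_singleton] at hn
    simp only [Finset.mem_range, M]
    omega
  calc ‖F.coeff 0‖ ^ 2 + ‖F.coeff 1‖ ^ 2 = ∑ n ∈ ({0, 1} : Finset ℕ), ‖F.coeff n‖ ^ 2 := by
        rw [Finset.sum_pair (by norm_num)]
    _ ≤ _ := Finset.sum_le_sum_of_subset_of_nonneg this fun _ _ _ => by positivity

end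

end Pool.Agent.Q185.RowVN
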