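import Mathlib

/-!
MP_59d57e_an (helper185): the row-valued von Neumann inequality does not imply the inequality for
square matrices.  Definitions.
-/

open MvPolynomial

namespace Pool.Agent.Q185.RowVN

noncomputable section

/-- `ℂ^d` with its Euclidean norm. -/
abbrev Cn (d : ℕ) : Type := EuclideanSpace ℂ (Fin d)

/-- The value `p(T)` of a polynomial at a tuple of (commuting) operators `T 0, ..., T (d-1)`. -/
def evalOp {d : ℕ} {E : Type*} [NormedAddCommGroup E] [InnerProductSpace ℂ E]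
    (T : Fin d → E →L[ℂ] E) (p : MvPolynomial (Fin d) ℂ) : E →L[ℂ] E :=
  ∑ α ∈ p.support, p.coeff α • (List.ofFn fun i => T i ^ α i).prod

/-- `C` bounds the operator of multiplication by the matrix polynomial `P`, from
`H ⊗ ℂ^m` to `H ⊗ ℂ^p`, where `H` is a Hilbert space of functions on `Ω`. -/
def MultBound {d : ℕ} {Ω : Set (Cn d)} (H : Type) [NormedAddCommGroup H] [InnerProductSpace ℂ H]
    [RKHS ℂ H Ω ℂ] {p m : ℕ} (P : Matrix (Fin p) (Fin m) (MvPolynomial (Fin d) ℂ)) (C : ℝ) :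
    Prop :=
  ∀ f : Fin m → H, ∃ g : Fin p → H,
    (∀ (i : Fin p) (z : Ω), g i z = ∑ j, MvPolynomial.eval (fun k => (z : Cn d) k) (P i j) * f j z) ∧
      ∑ i, ‖g i‖ ^ 2 ≤ C ^ 2 * ∑ j, ‖f j‖ ^ 2

/-- `C` bounds the operator `P(T)` from `E^m` to `E^p`. -/
def OpBound {d : ℕ} {E : Type} [NormedAddCommGroup E] [InnerProductSpace ℂ E]
    (T : Fin d → E →L[ℂ] E) {p m : ℕ} (P : Matrix (Fin p) (Fin m) (MvPolynomial (Fin d) ℂ))
    (C : ℝ) : Prop :=
  ∀ x : Fin m → E, ∑ i, ‖∑ j, evalOp T (P i j) (x j)‖ ^ 2 ≤ C ^ 2 * ∑ j, ‖x j‖ ^ 2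

/-- The inequality `‖P(T)‖ ≤ ‖P‖_Mult`: every bound of the multiplication by `P` is a bound
of `P(T)`. -/
def NormLe {d : ℕ} {Ω : Set (Cn d)} (H : Type) [NormedAddCommGroup H] [InnerProductSpace ℂ H]
    [RKHS ℂ H Ω ℂ] {E : Type} [NormedAddCommGroup E] [InnerProductSpace ℂ E]
    (T : Fin d → E →L[ℂ] E) {p m : ℕ} (P : Matrix (Fin p) (Fin m) (MvPolynomial (Fin d) ℂ)) :
    Prop :=
  ∀ C : ℝ, 0 ≤ C → MultBound H P C → OpBound T P C

/-- `T` satisfies the row inequality. -/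
def RowInequality {d : ℕ} {Ω : Set (Cn d)} (H : Type) [NormedAddCommGroup H]
    [InnerProductSpace ℂ H] [RKHS ℂ H Ω ℂ] {E : Type} [NormedAddCommGroup E]
    [InnerProductSpace ℂ E] (T : Fin d → E →L[ℂ] E) : Prop :=
  ∀ (m : ℕ) (P : Matrix (Fin 1) (Fin m) (MvPolynomial (Fin d) ℂ)), NormLe H T P

/-- `T` is `Mult(H)`-contractive: the inequality holds for all square matrix polynomials. -/
def MultContractive {d : ℕ} {Ω : Set (Cn d)} (H : Type) [NormedAddCommGroup H]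
    [InnerProductSpace ℂ H] [RKHS ℂ H Ω ℂ] {E : Type} [NormedAddCommGroup E]
    [InnerProductSpace ℂ E] (T : Fin d → E →L[ℂ] E) : Prop :=
  ∀ (m : ℕ) (P : Matrix (Fin m) (Fin m) (MvPolynomial (Fin d) ℂ)), NormLe H T P

/-- The open unit ball of `ℂ²`. -/
def Ball : Set (Cn 2) := Metric.ball 0 1

/-- The operator on `ℂ³` with `e₀ ↦ e_(i+1)`, `e₁, e₂ ↦ 0`. -/
def T (i : Fin 2) : Cn 3 →L[ℂ] Cn 3 :=
  (EuclideanSpace.proj (0 : Fin 3)).smulRight (EuclideanSpace.single i.succ (1 : ℂ))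

end

end Pool.Agent.Q185.RowVN
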