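import Pool.Agent.Q185.RowVN.Alg

/-!
MP_59d57e_an (helper185): the general theorem: on the unit ball of `ℂ²`, for every reproducing
kernel Hilbert space without common zeros on which the column `(z₁, z₂)` is contractive.
-/

open MvPolynomial

namespace Pool.Agent.Q185.RowVN

noncomputable section

section

variable {H : Type} [NormedAddCommGroup H] [InnerProductSpace ℂ H] [CompleteSpace H]
  [RKHS ℂ H Ball ℂ]

/-- a row multiplier bound dominates the pointwise norm -/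
theorem pointwise (hne : ∀ z : Ball, ∃ f : H, f z ≠ 0) {m : ℕ}
    (P : Matrix (Fin 1) (Fin m) (MvPolynomial (Fin 2) ℂ)) {C : ℝ}
    (hP : MultBound H P C) (z : Ball) :
    ∑ j, ‖MvPolynomial.eval (fun k => (z : Cn 2) k) (P 0 j)‖ ^ 2 ≤ C ^ 2 := by
  set a : Fin m → ℂ := fun j => MvPolynomial.eval (fun k => (z : Cn 2) k) (P 0 j) with ha
  let κ : H := RKHS.kerFun H z 1
  have hrep : ∀ f : H, f z = inner ℂ κ f := fun f => by
    have := RKHS.kerFun_inner (H := H) z (1 : ℂ) f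
    simp only [κ, this]
    simp
  have hκ : κ z = ((‖κ‖ ^ 2 : ℝ) : ℂ) := by
    rw [hrep, inner_self_eq_norm_sq_to_K]; simp
  have hκ0 : 0 < ‖κ‖ := by
    rcases hne z with ⟨f, hf⟩
    rw [norm_pos_iff]
    intro h
    apply hf
    rw [hrep, h, inner_zero_left]
  obtain ⟨g, hg, hgn⟩ := hP fun j => (starRingEnd ℂ) (a j) • κ
  have h1 : g 0 z = ((∑ j, ‖a j‖ ^ 2 : ℝ) : ℂ) * ((‖κ‖ ^ 2 : ℝ) : ℂ) := by
    rw [hg 0 z]
    push_cast
    rw [Finset.sum_mul]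
    refine Finset.sum_congr rfl fun j _ => ?_
    rw [RKHS.coe_smul, Pi.smul_apply, hκ, smul_eq_mul]
    have : a j * (starRingEnd ℂ) (a j) = ((‖a j‖ : ℂ)) ^ 2 := by
      rw [Complex.mul_conj, Complex.normSq_eq_norm_sq]; push_cast; rfl
    rw [← mul_assoc, show MvPolynomial.eval (fun k => (z : Cn 2) k) (P 0 j) = a j from rfl, this]
    push_cast; rfl
  set S : ℝ := ∑ j, ‖a j‖ ^ 2 with hS
  have hS0 : 0 ≤ S := Finset.sum_nonneg fun _ _ => by positivity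
  have h2 : ‖g 0‖ ^ 2 ≤ C ^ 2 * (S * ‖κ‖ ^ 2) := by
    have := hgn
    simp only [Fin.sum_univ_one, norm_smul, RCLike.norm_conj, mul_pow, ← Finset.sum_mul] at this
    exact this
  have h3 : S * ‖κ‖ ^ 2 ≤ ‖κ‖ * ‖g 0‖ := by
    have h4 : ‖g 0 z‖ ≤ ‖κ‖ * ‖g 0‖ := by rw [hrep]; exact norm_inner_le_norm _ _
    rw [h1, ← Complex.ofReal_mul, Complex.norm_real, Real.norm_of_nonneg (by positivity)] at h4
    exact h4
  have h5 : (S * ‖κ‖ ^ 2) ^ 2 ≤ ‖κ‖ ^ 2 * (C ^ 2 * (S * ‖κ‖ ^ 2)) := by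
    calc (S * ‖κ‖ ^ 2) ^ 2 ≤ (‖κ‖ * ‖g 0‖) ^ 2 := pow_le_pow_left₀ (by positivity) h3 2
      _ = ‖κ‖ ^ 2 * ‖g 0‖ ^ 2 := by ring
      _ ≤ _ := by gcongr
  rcases hS0.eq_or_lt with h | h
  · rw [← h]; positivity
  · have h6 : S * (S * ‖κ‖ ^ 4) ≤ C ^ 2 * (S * ‖κ‖ ^ 4) := by nlinarith [h5]
    exact le_of_mul_le_mul_right h6 (by positivity)

theorem row (hne : ∀ z : Ball, ∃ f : H, f z ≠ 0) : RowInequality H T := by
  intro m P C hC hP x
  simp only [Fin.sum_univ_one]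
  -- the closed ball
  have hcl : ∀ z : Cn 2, ‖z‖ ≤ 1 → ∑ j, ‖MvPolynomial.eval (fun k => z k) (P 0 j)‖ ^ 2 ≤ C ^ 2 := by
    intro z hz
    have hmem : z ∈ closure Ball := by
      unfold Ball
      rw [closure_ball _ one_ne_zero]
      simpa using hz
    refine closure_minimal (s := Ball)
      (t := {z : Cn 2 | ∑ j, ‖MvPolynomial.eval (fun k => z k) (P 0 j)‖ ^ 2 ≤ C ^ 2}) ?_ ?_ hmem
    · intro w hw
      exact pointwise hne P hP ⟨w, hw⟩
    · refine isClosed_le ?_ continuous_const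
      refine continuous_finsetSum _ fun j _ => ?_
      refine (continuous_norm.comp ?_).pow 2
      exact (MvPolynomial.continuous_eval (P 0 j)).comp
        (continuous_pi fun k => (PiLp.continuous_apply 2 _ k))
  -- the value of `P(T) x`
  set a : Fin m → ℂ := fun j => (P 0 j).coeff 0 with ha
  set b : Fin 2 → Fin m → ℂ := fun i j => (P 0 j).coeff (Finsupp.single i 1) with hb
  set y : Cn 3 := ∑ j, evalOp T (P 0 j) (x j) with hy
  have y0 : y 0 = ∑ j, a j * x j 0 := by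
    simp [hy, evalOp_T, T_apply, a]
  have y1 : y 1 = ∑ j, (b 0 j * x j 0 + a j * x j 1) := by
    simp only [hy, evalOp_T, WithLp.ofLp_sum, Finset.sum_apply, a, b]
    refine Finset.sum_congr rfl fun j _ => ?_
    simp [T_apply]
    ring
  have y2 : y 2 = ∑ j, (b 1 j * x j 0 + a j * x j 2) := by
    simp only [hy, evalOp_T, WithLp.ofLp_sum, Finset.sum_apply, a, b]
    refine Finset.sum_congr rfl fun j _ => ?_
    simp [T_apply]
    ring
  have hy2 : ‖y‖ ^ 2 = ‖y 0‖ ^ 2 + (‖y 1‖ ^ 2 + ‖y 2‖ ^ 2) := by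
    rw [EuclideanSpace.norm_sq_eq, Fin.sum_univ_three]; ring
  have hx2 : ∀ j, ‖x j‖ ^ 2 = ‖x j 0‖ ^ 2 + (‖x j 1‖ ^ 2 + ‖x j 2‖ ^ 2) := fun j => by
    rw [EuclideanSpace.norm_sq_eq, Fin.sum_univ_three]; ring
  -- the direction
  set r : ℝ := √(‖y 1‖ ^ 2 + ‖y 2‖ ^ 2) with hr
  have hr2 : r ^ 2 = ‖y 1‖ ^ 2 + ‖y 2‖ ^ 2 := Real.sq_sqrt (by positivity)
  obtain ⟨ζ, hζ1, hζ2⟩ : ∃ ζ : Fin 2 → ℂ, ‖ζ 0‖ ^ 2 + ‖ζ 1‖ ^ 2 = 1 ∧
      ‖ζ 0 * y 1 + ζ 1 * y 2‖ = r := by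
    rcases eq_or_ne r 0 with h0 | h0
    · refine ⟨![1, 0], by simp, ?_⟩
      have : ‖y 1‖ ^ 2 + ‖y 2‖ ^ 2 = 0 := by rw [← hr2, h0]; simp
      have h1 : ‖y 1‖ = 0 := by nlinarith [sq_nonneg ‖y 1‖, sq_nonneg ‖y 2‖]
      simp [h1, h0]
    · have hrpos : 0 < r := lt_of_le_of_ne (Real.sqrt_nonneg _) (Ne.symm h0)
      refine ⟨![(starRingEnd ℂ) (y 1) / r, (starRingEnd ℂ) (y 2) / r], ?_, ?_⟩
      · simp only [Matrix.cons_val_zero, Matrix.cons_val_one, norm_div, RCLike.norm_conj,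
          Complex.norm_real, Real.norm_of_nonneg hrpos.le, div_pow]
        rw [← add_div, ← hr2, div_self (by positivity)]
      · have : ![(starRingEnd ℂ) (y 1) / (r : ℂ), (starRingEnd ℂ) (y 2) / r] 0 * y 1 +
            ![(starRingEnd ℂ) (y 1) / (r : ℂ), (starRingEnd ℂ) (y 2) / r] 1 * y 2 =
            ((r ^ 2 / r : ℝ) : ℂ) := by
          simp only [Matrix.cons_val_zero, Matrix.cons_val_one]
          have e : ∀ z : ℂ, (starRingEnd ℂ) z * z = ((‖z‖ ^ 2 : ℝ) : ℂ) := fun z => by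
            rw [mul_comm, Complex.mul_conj, Complex.normSq_eq_norm_sq]
          rw [div_mul_eq_mul_div, div_mul_eq_mul_div, e, e, ← add_div, ← Complex.ofReal_add, ← hr2,
            Complex.ofReal_div]
        rw [this, Complex.norm_real, pow_two, mul_div_assoc, div_self h0, mul_one,
          Real.norm_of_nonneg hrpos.le]
  -- apply the one variable inequality
  let q : Fin m → Polynomial ℂ := fun j => slice ζ (P 0 j)
  have hq : ∀ l : ℂ, ‖l‖ = 1 → ∑ j, ‖(q j).eval l‖ ^ 2 ≤ C ^ 2 := by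
    intro l hl
    have := hcl (WithLp.toLp 2 fun i => ζ i * l) ?_
    · simpa [q, eval_slice] using this
    · rw [← abs_of_nonneg (norm_nonneg _), ← sq_le_one_iff_abs_le_one,
        EuclideanSpace.norm_sq_eq, Fin.sum_univ_two]
      simp [hl, hζ1]
  have key := truncated q C hq (fun j => x j 0) (fun j => ζ 0 * x j 1 + ζ 1 * x j 2)
  simp only [q, slice_coeff_zero, slice_coeff_one] at key
  have e1 : ∑ j, ((ζ 0 * (P 0 j).coeff (Finsupp.single 0 1) +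
      ζ 1 * (P 0 j).coeff (Finsupp.single 1 1)) * x j 0 +
        (P 0 j).coeff 0 * (ζ 0 * x j 1 + ζ 1 * x j 2)) = ζ 0 * y 1 + ζ 1 * y 2 := by
    rw [y1, y2, Finset.mul_sum, Finset.mul_sum, ← Finset.sum_add_distrib]
    refine Finset.sum_congr rfl fun j _ => ?_
    simp only [a, b]; ring
  rw [e1, hζ2, ← y0] at key
  rw [hy2, ← hr2]
  refine key.trans ?_
  refine mul_le_mul_of_nonneg_left ?_ (by positivity)
  refine Finset.sum_le_sum fun j _ => ?_
  rw [hx2]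
  have : ‖ζ 0 * x j 1 + ζ 1 * x j 2‖ ^ 2 ≤ ‖x j 1‖ ^ 2 + ‖x j 2‖ ^ 2 := by
    calc ‖ζ 0 * x j 1 + ζ 1 * x j 2‖ ^ 2 ≤ (‖ζ 0‖ * ‖x j 1‖ + ‖ζ 1‖ * ‖x j 2‖) ^ 2 := by
          refine pow_le_pow_left₀ (norm_nonneg _) ((norm_add_le _ _).trans_eq ?_) 2
          simp
      _ ≤ (‖ζ 0‖ ^ 2 + ‖ζ 1‖ ^ 2) * (‖x j 1‖ ^ 2 + ‖x j 2‖ ^ 2) := by
          nlinarith [sq_nonneg (‖ζ 0‖ * ‖x j 2‖ - ‖ζ 1‖ * ‖x j 1‖)]
      _ = _ := by rw [hζ1, one_mul]
  linarith

theorem not_contractive (hcol : ∀ f : H, ∃ g : Fin 2 → H,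
    (∀ (i : Fin 2) (z : Ball), g i z = (z : Cn 2) i * f z) ∧ ∑ i, ‖g i‖ ^ 2 ≤ ‖f‖ ^ 2) :
    ¬ MultContractive H T := by
  intro h
  have hb : MultBound H (Matrix.of fun i j : Fin 2 => if j = 0 then (X i : MvPolynomial (Fin 2) ℂ)
      else 0) 1 := by
    intro f
    obtain ⟨g, hg, hgn⟩ := hcol (f 0)
    refine ⟨g, fun i z => ?_, ?_⟩
    · rw [hg]
      simp
    · rw [one_pow, one_mul, Fin.sum_univ_two (f := fun j => ‖f j‖ ^ 2)]
      exact hgn.trans (le_add_of_nonneg_right (by positivity))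
  have h2 := h 2 _ 1 zero_le_one hb ![EuclideanSpace.single 0 1, 0]
  have e : ∀ i : Fin 2, evalOp T (X i : MvPolynomial (Fin 2) ℂ) = T i := by
    intro i
    rw [evalOp_T]
    have c0 : (X i : MvPolynomial (Fin 2) ℂ).coeff 0 = 0 := by
      simp
    have hc : ∀ j : Fin 2, (X i : MvPolynomial (Fin 2) ℂ).coeff (Finsupp.single j 1) =
        if i = j then 1 else 0 := by
      intro j
      rw [MvPolynomial.coeff_X]
      by_cases hij : i = j
      · simp [hij]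
      · have : ¬ (Finsupp.single i 1 : Fin 2 →₀ ℕ) = Finsupp.single j 1 := by
          intro h
          have := DFunLike.congr_fun h i
          simp [Ne.symm hij] at this
        simp [hij, this]
    rw [c0, hc, hc]
    fin_cases i <;> ext x k <;> simp
  simp only [Matrix.of_apply, Fin.sum_univ_two, Matrix.cons_val_zero, Matrix.cons_val_one,
    if_true, e, map_zero, add_zero, T_apply] at h2
  norm_num at h2

end

end

end Pool.Agent.Q185.RowVN
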