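import Mathlib

/-!
MP_59d57e_an (helper185): coefficients of the kernel `(1 - ⟨z, w⟩)^(-2)`.
-/

namespace Pool.Agent.Q185.RowVN

noncomputable section

/-- the squared coefficient `(n + m + 1)! / (n! m!)` -/
def c2 (p : ℕ × ℕ) : ℝ := ((p.1 + p.2 + 1).factorial : ℝ) / (p.1.factorial * p.2.factorial)

theorem c2_pos (p : ℕ × ℕ) : 0 < c2 p := by
  unfold c2; positivity

theorem c2_choose (n m : ℕ) : c2 (n, m) = (n + m + 1) * ((n + m).choose n : ℝ) := by
  unfold c2
  have h : ((n + m).choose n : ℝ) * n.factorial * m.factorial = (n + m).factorial := by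
    have := Nat.add_choose_mul_factorial_mul_factorial n m
    rw [← Nat.choose_symm_add] at this
    exact_mod_cast this
  have hn : (n.factorial : ℝ) ≠ 0 := by positivity
  have hm : (m.factorial : ℝ) ≠ 0 := by positivity
  simp only [Nat.factorial_succ]
  field_simp
  push_cast
  rw [← h]; ring

theorem c2_succ_left (n m : ℕ) : c2 (n + 1, m) * ((n + 1) / (n + m + 2)) = c2 (n, m) := by
  unfold c2
  have e : n + 1 + m + 1 = (n + m + 1) + 1 := by ring
  simp only [e, Nat.factorial_succ]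
  push_cast
  field_simp
  ring

theorem c2_succ_right (n m : ℕ) : c2 (n, m + 1) * ((m + 1) / (n + m + 2)) = c2 (n, m) := by
  unfold c2
  have e : n + (m + 1) + 1 = (n + m + 1) + 1 := by ring
  simp only [e, Nat.factorial_succ]
  push_cast
  field_simp
  ring

theorem antidiag {R : Type*} [CommRing R] [Algebra ℝ R] (s t : R) (N : ℕ) :
    ∑ p ∈ Finset.HasAntidiagonal.antidiagonal N, c2 p • (s ^ p.1 * t ^ p.2) = ((N : R) + 1) * (s + t) ^ N := by
  rw [(Commute.all s t).add_pow', Finset.mul_sum]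
  refine Finset.sum_congr rfl fun p hp => ?_
  have hN : p.1 + p.2 = N := Finset.HasAntidiagonal.mem_antidiagonal.1 hp
  have : c2 p = ((N : ℝ) + 1) * (N.choose p.1 : ℝ) := by
    rw [show p = (p.1, p.2) from rfl, c2_choose, ← hN]; push_cast; rfl
  rw [this, nsmul_eq_mul, Algebra.smul_def, map_mul, map_add, map_one, map_natCast, map_natCast]
  ring

theorem summable_real {s t : ℝ} (hs : 0 ≤ s) (ht : 0 ≤ t) (h : s + t < 1) :
    Summable fun p : ℕ × ℕ => c2 p * (s ^ p.1 * t ^ p.2) := by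
  rw [← Finset.HasAntidiagonal.sigmaAntidiagonalEquivProd.summable_iff]
  have hnn : ∀ p : ℕ × ℕ, 0 ≤ c2 p * (s ^ p.1 * t ^ p.2) := fun p => by
    have := (c2_pos p).le; positivity
  refine (summable_sigma_of_nonneg (f := (fun p : ℕ × ℕ => c2 p * (s ^ p.1 * t ^ p.2)) ∘
    Finset.HasAntidiagonal.sigmaAntidiagonalEquivProd) fun x => hnn _).2
      ⟨fun N => summable_of_hasFiniteSupport (Set.toFinite _), ?_⟩
  have : ∀ N : ℕ, ∑' y : Finset.HasAntidiagonal.antidiagonal N, ((fun p : ℕ × ℕ => c2 p * (s ^ p.1 * t ^ p.2)) ∘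
      Finset.HasAntidiagonal.sigmaAntidiagonalEquivProd) ⟨N, y⟩ = ((N : ℝ) + 1) * (s + t) ^ N := by
    intro N
    rw [tsum_fintype, ← antidiag s t N,
      ← Finset.sum_coe_sort (Finset.HasAntidiagonal.antidiagonal N) (fun p => c2 p • (s ^ p.1 * t ^ p.2))]
    rfl
  simp_rw [this]
  have h2 := summable_choose_mul_geometric_of_norm_lt_one (R := ℝ) 1 (r := s + t)
    (by rw [Real.norm_of_nonneg (by positivity)]; exact h)
  refine h2.congr fun N => ?_
  simp

theorem summable_complex {s t : ℂ} (h : ‖s‖ + ‖t‖ < 1) :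
    Summable fun p : ℕ × ℕ => (c2 p : ℂ) * (s ^ p.1 * t ^ p.2) := by
  refine Summable.of_norm ?_
  refine (summable_real (norm_nonneg s) (norm_nonneg t) h).congr fun p => ?_
  simp [abs_of_pos (c2_pos p)]

theorem tsum_complex {s t : ℂ} (h : ‖s‖ + ‖t‖ < 1) :
    ∑' p : ℕ × ℕ, (c2 p : ℂ) * (s ^ p.1 * t ^ p.2) = 1 / (1 - (s + t)) ^ 2 := by
  have hs := summable_complex h
  have hs' := Finset.HasAntidiagonal.sigmaAntidiagonalEquivProd.summable_iff.2 hs
  rw [← Finset.HasAntidiagonal.sigmaAntidiagonalEquivProd.tsum_eq]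
  refine (hs'.tsum_sigma' ?_).trans ?_
  rotate_left
  · have : ∀ N : ℕ, ∑' y : Finset.HasAntidiagonal.antidiagonal N,
        (c2 (Finset.HasAntidiagonal.sigmaAntidiagonalEquivProd ⟨N, y⟩) : ℂ) *
          (s ^ (Finset.HasAntidiagonal.sigmaAntidiagonalEquivProd ⟨N, y⟩).1 *
            t ^ (Finset.HasAntidiagonal.sigmaAntidiagonalEquivProd ⟨N, y⟩).2) = ((N : ℂ) + 1) * (s + t) ^ N := by
      intro N
      rw [tsum_fintype, ← antidiag s t N,
        ← Finset.sum_coe_sort (Finset.HasAntidiagonal.antidiagonal N) (fun p => c2 p • (s ^ p.1 * t ^ p.2))]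
      refine Finset.sum_congr rfl fun y _ => ?_
      rw [Complex.real_smul]; rfl
    simp only [Function.comp_apply]
    simp_rw [this]
    have h2 := hasSum_choose_mul_geometric_of_norm_lt_one (𝕜 := ℂ) 1 (r := s + t)
      (lt_of_le_of_lt (norm_add_le _ _) h)
    rw [← h2.tsum_eq]
    exact tsum_congr fun N => by simp
  · intro N
    exact summable_of_hasFiniteSupport (Set.toFinite _)

end

end Pool.Agent.Q185.RowVN
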