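import Pool.Agent.Q185.RowVN.Hardy
import Pool.Agent.Q185.RowVN.Gen

/-!
MP_59d57e_an (helper185): the Hardy space of the unit ball of `ℂ²`, i.e. the reproducing kernel
Hilbert space with kernel `(1 - ⟨z, w⟩)^(-2)`.
-/

open scoped ComplexConjugate

namespace Pool.Agent.Q185.RowVN

noncomputable section

/-- the coefficient space -/
abbrev K : Type := lp (fun _ : ℕ × ℕ => ℂ) 2

theorem mem_iff (f : ℕ × ℕ → ℂ) : Memℓp f 2 ↔ Summable fun p => ‖f p‖ ^ 2 := by
  rw [memℓp_gen_iff (by norm_num)]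
  simp

theorem hasSum_sq (f : K) : HasSum (fun p => ‖f p‖ ^ 2) (‖f‖ ^ 2) := by
  have := lp.hasSum_norm (p := 2) (by norm_num) f
  simpa using this

theorem ball_lt (z : Ball) : ‖(z : Cn 2) 0‖ ^ 2 + ‖(z : Cn 2) 1‖ ^ 2 < 1 := by
  have h := z.2
  unfold Ball at h
  rw [mem_ball_zero_iff] at h
  have h2 := EuclideanSpace.norm_sq_eq (z : Cn 2)
  rw [Fin.sum_univ_two] at h2
  rw [← h2]
  nlinarith [norm_nonneg (z : Cn 2)]

theorem ball_lt' (z w : Ball) : ‖(z : Cn 2) 0 * conj ((w : Cn 2) 0)‖ +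
    ‖(z : Cn 2) 1 * conj ((w : Cn 2) 1)‖ < 1 := by
  have hz := ball_lt z
  have hw := ball_lt w
  simp only [norm_mul, RCLike.norm_conj]
  nlinarith [sq_nonneg (‖(z : Cn 2) 0‖ - ‖(w : Cn 2) 0‖), sq_nonneg (‖(z : Cn 2) 1‖ - ‖(w : Cn 2) 1‖)]

/-- the feature vector of `z` -/
def phiFun (z : Ball) (p : ℕ × ℕ) : ℂ :=
  (√(c2 p) : ℂ) * conj ((z : Cn 2) 0 ^ p.1 * (z : Cn 2) 1 ^ p.2)

theorem phi_mem (z : Ball) : Memℓp (phiFun z) 2 := by
  rw [mem_iff]
  refine (summable_real (sq_nonneg ‖(z : Cn 2) 0‖) (sq_nonneg ‖(z : Cn 2) 1‖) (ball_lt z)).congr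
    fun p => ?_
  unfold phiFun
  rw [norm_mul, mul_pow, Complex.norm_real, Real.norm_of_nonneg (Real.sqrt_nonneg _),
    Real.sq_sqrt (c2_pos p).le, RCLike.norm_conj, norm_mul, norm_pow, norm_pow]
  ring

def phi (z : Ball) : K := ⟨phiFun z, phi_mem z⟩

theorem hasSum_phi (z : Ball) (f : K) :
    HasSum (fun p : ℕ × ℕ => (√(c2 p) : ℂ) * ((z : Cn 2) 0 ^ p.1 * (z : Cn 2) 1 ^ p.2) * f p)
      (inner ℂ (phi z) f) := by
  refine (lp.hasSum_inner (phi z) f).congr_fun ?_ |> fun h => h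
  intro p
  simp only [phi, phiFun, RCLike.inner_apply, map_mul, Complex.conj_conj, Complex.conj_ofReal]
  ring

theorem inner_phi (z w : Ball) : inner ℂ (phi z) (phi w) =
    1 / (1 - ((z : Cn 2) 0 * conj ((w : Cn 2) 0) + (z : Cn 2) 1 * conj ((w : Cn 2) 1))) ^ 2 := by
  rw [← tsum_complex (ball_lt' z w), ← (hasSum_phi z (phi w)).tsum_eq]
  refine tsum_congr fun p => ?_
  have h : ((√(c2 p) : ℝ) : ℂ) * ((√(c2 p) : ℝ) : ℂ) = (c2 p : ℂ) := by
    rw [← Complex.ofReal_mul, Real.mul_self_sqrt (c2_pos p).le]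
  simp only [phi, phiFun, map_mul, map_pow]
  rw [← h]; ring

/-- the weights of the shifts -/
def wt (a : ℕ) (p : ℕ × ℕ) : ℝ := (a + 1) / (p.1 + p.2 + 2)

theorem wt_nonneg (a : ℕ) (p : ℕ × ℕ) : 0 ≤ wt a p := by unfold wt; positivity

theorem wt_add (p : ℕ × ℕ) : wt p.1 p + wt p.2 p = 1 := by
  unfold wt
  field_simp
  ring

theorem wt_le (p : ℕ × ℕ) : wt p.1 p ≤ 1 ∧ wt p.2 p ≤ 1 := by
  have := wt_add p
  have h1 := wt_nonneg p.1 p
  have h2 := wt_nonneg p.2 p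
  constructor <;> linarith

/-- the injections -/
def inj : Fin 2 → ℕ × ℕ → ℕ × ℕ := ![fun p => (p.1 + 1, p.2), fun p => (p.1, p.2 + 1)]

theorem inj_injective (i : Fin 2) : Function.Injective (inj i) := by
  fin_cases i <;> (rintro ⟨a, b⟩ ⟨c, d⟩ h; simpa [inj] using h)

/-- the coordinate shifted -/
def co : Fin 2 → ℕ × ℕ → ℕ := ![Prod.fst, Prod.snd]

open Classical in
/-- multiplication by `z_i` on coefficients -/
def shFun (i : Fin 2) (f : ℕ × ℕ → ℂ) : ℕ × ℕ → ℂ :=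
  Function.extend (inj i) (fun p => (√(wt (co i p) p) : ℂ) * f p) 0

theorem shFun_inj (i : Fin 2) (f : ℕ × ℕ → ℂ) (p : ℕ × ℕ) :
    shFun i f (inj i p) = (√(wt (co i p) p) : ℂ) * f p :=
  (inj_injective i).extend_apply _ _ _

theorem shFun_zero (i : Fin 2) (f : ℕ × ℕ → ℂ) {p : ℕ × ℕ} (hp : p ∉ Set.range (inj i)) :
    shFun i f p = 0 := by
  unfold shFun
  rw [Function.extend_apply' _ _ _ (fun ⟨a, ha⟩ => hp ⟨a, ha⟩)]
  rfl

theorem wt_co_nonneg (i : Fin 2) (p : ℕ × ℕ) : 0 ≤ wt (co i p) p := wt_nonneg _ _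

theorem wt_co_le (i : Fin 2) (p : ℕ × ℕ) : wt (co i p) p ≤ 1 := by
  fin_cases i
  · exact (wt_le p).1
  · exact (wt_le p).2

theorem sh_norm (i : Fin 2) (f : ℕ × ℕ → ℂ) (p : ℕ × ℕ) :
    ‖shFun i f (inj i p)‖ ^ 2 = wt (co i p) p * ‖f p‖ ^ 2 := by
  rw [shFun_inj, norm_mul, mul_pow, Complex.norm_real, Real.norm_of_nonneg (Real.sqrt_nonneg _),
    Real.sq_sqrt (wt_co_nonneg i p)]

theorem sh_summable (i : Fin 2) (f : K) : Summable fun p => wt (co i p) p * ‖f p‖ ^ 2 :=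
  Summable.of_nonneg_of_le (fun p => mul_nonneg (wt_co_nonneg i p) (by positivity))
    (fun p => by
      have := mul_le_mul_of_nonneg_right (wt_co_le i p) (sq_nonneg ‖f p‖)
      simpa using this) (hasSum_sq f).summable

theorem sh_mem (i : Fin 2) (f : K) : Memℓp (shFun i f) 2 := by
  rw [mem_iff, ← (inj_injective i).summable_iff]
  · refine (sh_summable i f).congr fun p => ?_
    simp only [Function.comp_apply, sh_norm]
  · intro p hp
    simp [shFun_zero i f hp]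

def sh (i : Fin 2) (f : K) : K := ⟨shFun i f, sh_mem i f⟩

theorem sh_norm_sq (i : Fin 2) (f : K) : ‖sh i f‖ ^ 2 = ∑' p, wt (co i p) p * ‖f p‖ ^ 2 := by
  rw [← (hasSum_sq (sh i f)).tsum_eq, ← (inj_injective i).tsum_eq (f := fun p => ‖sh i f p‖ ^ 2)]
  · exact tsum_congr fun p => sh_norm i f p
  · intro p hp
    by_contra h
    exact hp (by simp [sh, shFun_zero i f h])

theorem sh_sum (f : K) : ∑ i, ‖sh i f‖ ^ 2 = ‖f‖ ^ 2 := by
  rw [Fin.sum_univ_two, sh_norm_sq, sh_norm_sq, ← (sh_summable 0 f).tsum_add (sh_summable 1 f),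
    ← (hasSum_sq f).tsum_eq]
  refine tsum_congr fun p => ?_
  have := wt_add p
  simp only [co, Matrix.cons_val_zero, Matrix.cons_val_one]
  rw [← add_mul, this, one_mul]

theorem c2_inj (i : Fin 2) (p : ℕ × ℕ) : √(c2 (inj i p)) * √(wt (co i p) p) = √(c2 p) := by
  rw [← Real.sqrt_mul (c2_pos _).le]
  congr 1
  fin_cases i
  · exact c2_succ_left p.1 p.2
  · exact c2_succ_right p.1 p.2

theorem inner_sh (i : Fin 2) (z : Ball) (f : K) :
    inner ℂ (phi z) (sh i f) = (z : Cn 2) i * inner ℂ (phi z) f := by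
  rw [← (hasSum_phi z (sh i f)).tsum_eq, ← (hasSum_phi z f).tsum_eq, ← tsum_mul_left,
    ← (inj_injective i).tsum_eq]
  · refine tsum_congr fun p => ?_
    have h1 : sh i f (inj i p) = (√(wt (co i p) p) : ℂ) * f p := shFun_inj i f p
    have h2 : (√(c2 (inj i p)) : ℂ) * (√(wt (co i p) p) : ℂ) = (√(c2 p) : ℂ) := by
      rw [← Complex.ofReal_mul, c2_inj]
    have h3 : (z : Cn 2) 0 ^ (inj i p).1 * (z : Cn 2) 1 ^ (inj i p).2 =
        (z : Cn 2) i * ((z : Cn 2) 0 ^ p.1 * (z : Cn 2) 1 ^ p.2) := by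
      fin_cases i
      · simp [inj, pow_succ]; ring
      · simp [inj, pow_succ]; ring
    rw [h1, h3, ← h2]
    ring
  · intro p hp
    by_contra h
    apply hp
    have : sh i f p = 0 := shFun_zero i f h
    simp [this]

/-- the Hardy space of the ball of `ℂ²` -/
abbrev Hardy : Type := ↥((Submodule.span ℂ (Set.range phi)).topologicalClosure)

theorem phi_mem_hardy (z : Ball) : phi z ∈ (Submodule.span ℂ (Set.range phi)).topologicalClosure :=
  Submodule.le_topologicalClosure _ (Submodule.subset_span ⟨z, rfl⟩)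

instance : CompleteSpace Hardy := Submodule.topologicalClosure.completeSpace _

instance hardyRKHS : RKHS ℂ Hardy Ball ℂ where
  coeCLM := ContinuousLinearMap.pi fun z =>
    (innerSL ℂ (phi z)).comp (Submodule.subtypeL _)
  coeCLM_injective := by
    refine (injective_iff_map_eq_zero _).2 fun f hf => ?_
    have h1 : ∀ z, inner ℂ (phi z) (f : K) = 0 := fun z => congrFun hf z
    have h2 : (f : K) ∈ (Submodule.span ℂ (Set.range phi))ᗮ := by
      rw [Submodule.mem_orthogonal]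
      intro u hu
      induction hu using Submodule.span_induction with
      | mem x hx => obtain ⟨z, rfl⟩ := hx; exact h1 z
      | zero => simp
      | add x y _ _ hx hy => rw [inner_add_left, hx, hy, add_zero]
      | smul a x _ hx => rw [inner_smul_left, hx, mul_zero]
    have h3 : (f : K) ∈ ((Submodule.span ℂ (Set.range phi)).topologicalClosure)ᗮ := by
      rwa [Submodule.orthogonal_closure]
    have h4 : inner ℂ (f : K) (f : K) = 0 := (Submodule.mem_orthogonal _ _).1 h3 f f.2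
    exact Subtype.ext (inner_self_eq_zero.1 h4)

theorem hardy_apply (f : Hardy) (z : Ball) : f z = inner ℂ (phi z) (f : K) := rfl

theorem hardy_kernel (z w : Ball) : RKHS.kernel Hardy z w 1 =
    1 / (1 - ((z : Cn 2) 0 * conj ((w : Cn 2) 0) + (z : Cn 2) 1 * conj ((w : Cn 2) 1))) ^ 2 := by
  rw [← RKHS.kerFun_apply, ← inner_phi]
  have : RKHS.kerFun Hardy w (1 : ℂ) = (⟨phi w, phi_mem_hardy w⟩ : Hardy) := by
    refine ext_inner_right ℂ fun f => ?_
    rw [RKHS.kerFun_inner, hardy_apply]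
    simp
  rw [this, hardy_apply]

theorem hardy_ne (z : Ball) : ∃ f : Hardy, f z ≠ 0 := by
  refine ⟨⟨phi z, phi_mem_hardy z⟩, ?_⟩
  rw [hardy_apply]
  intro h
  have h2 : phi z = 0 := inner_self_eq_zero.1 h
  have h3 : phiFun z (0, 0) = 0 := by
    have := congrArg (fun g : K => g (0, 0)) h2
    exact this
  simp [phiFun, c2] at h3

theorem hardy_col (f : Hardy) : ∃ g : Fin 2 → Hardy,
    (∀ (i : Fin 2) (z : Ball), g i z = (z : Cn 2) i * f z) ∧ ∑ i, ‖g i‖ ^ 2 ≤ ‖f‖ ^ 2 := by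
  refine ⟨fun i => ((Submodule.span ℂ (Set.range phi)).topologicalClosure).orthogonalProjectionOnto
    (sh i f), fun i z => ?_, ?_⟩
  · rw [hardy_apply, hardy_apply, ← inner_sh]
    exact Submodule.inner_orthogonalProjectionOnto_eq_of_mem_left (⟨phi z, phi_mem_hardy z⟩ : Hardy)
      (sh i f)
  · have h : ‖f‖ ^ 2 = ‖(f : K)‖ ^ 2 := rfl
    rw [h, ← sh_sum]
    refine Finset.sum_le_sum fun i _ => ?_
    refine pow_le_pow_left₀ (norm_nonneg _) ?_ 2
    exact Submodule.norm_orthogonalProjectionOnto_apply_le _ _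

end

end Pool.Agent.Q185.RowVN
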